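import Pool.Agent.helper10.TY.Spec

/-!
# MP_2e0e07_nt, project T, row PCO: the representation `MultiHom F e`
-/

set_option autoImplicit false

namespace Pool.Agent.TY

open Matrix Polynomial Pool.Agent.GO Pool.Agent.AR Pool.Agent.RG MeasureTheory

section PCO

variable {F : Type*} [Field F] {Γ : Type*} [Group Γ] {r : ℕ}

/-- the multidegree of an exponent -/
def PCO_wt (m : Fin r × Fin 2 →₀ ℕ) : Fin r → ℕ := fun k => m (k, 0) + m (k, 1)

theorem PCO_wt_add (m m' : Fin r × Fin 2 →₀ ℕ) : PCO_wt (m + m') = PCO_wt m + PCO_wt m' := by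
  ext k
  simp only [PCO_wt, Finsupp.add_apply, Pi.add_apply]
  omega

theorem PCO_wt_zero : PCO_wt (0 : Fin r × Fin 2 →₀ ℕ) = 0 := by
  ext k
  simp [PCO_wt]

theorem PCO_mem (e : Fin r → ℕ) (p : MvPolynomial (Fin r × Fin 2) F) :
    p ∈ MultiHom F e ↔ ∀ m ∈ p.support, PCO_wt m = e := by
  constructor
  · intro h m hm
    ext k
    exact h m hm k
  · intro h m hm k
    exact congrFun (h m hm) k

theorem PCO_fin (e : Fin r → ℕ) : {m : Fin r × Fin 2 →₀ ℕ | PCO_wt m = e}.Finite := by
  classical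
  let M : Fin r × Fin 2 →₀ ℕ := Finsupp.equivFunOnFinite.symm fun p => e p.1
  refine (Set.finite_Iic M).subset ?_
  intro m hm
  rw [Set.mem_Iic]
  intro p
  have h1 : m (p.1, 0) + m (p.1, 1) = e p.1 := congrFun hm p.1
  show m p ≤ e p.1
  obtain ⟨k, j⟩ := p
  fin_cases j
  · simp only at h1 ⊢
    show m (k, 0) ≤ e k
    omega
  · simp only at h1 ⊢
    show m (k, 1) ≤ e k
    omega

/-- the finite set of exponents -/
noncomputable def PCO_S (e : Fin r → ℕ) : Finset (Fin r × Fin 2 →₀ ℕ) := (PCO_fin e).toFinset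

theorem PCO_S_mem (e : Fin r → ℕ) (m : Fin r × Fin 2 →₀ ℕ) : m ∈ PCO_S e ↔ PCO_wt m = e := by
  simp [PCO_S]

theorem PCO_sum (e : Fin r → ℕ) (p : MvPolynomial (Fin r × Fin 2) F) (hp : p ∈ MultiHom F e) :
    p = ∑ m ∈ PCO_S e, MvPolynomial.monomial m (p.coeff m) := by
  have h1 : p.support ⊆ PCO_S e := by
    intro m hm
    rw [PCO_S_mem]
    exact (PCO_mem e p).1 hp m hm
  rw [← Finset.sum_subset h1]
  · exact MvPolynomial.as_sum p
  · intro m _ hm
    rw [MvPolynomial.notMem_support_iff.1 hm, map_zero]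

theorem PCO_LL_add (ρ : Fin r → Γ →* Matrix (Fin 2) (Fin 2) F) (e e' : Fin r → ℕ) :
    LL ρ (e + e') = LL ρ e * LL ρ e' := by
  unfold LL
  rw [← Finset.prod_mul_distrib]
  refine Finset.prod_congr rfl fun k _ => ?_
  rw [Pi.add_apply, pow_add]

theorem PCO_LL_zero (ρ : Fin r → Γ →* Matrix (Fin 2) (Fin 2) F) : LL ρ 0 = 1 := by
  unfold LL
  simp

theorem PCO_LL_single (ρ : Fin r → Γ →* Matrix (Fin 2) (Fin 2) F) (k : Fin r) :
    LL ρ (Pi.single k 1) = Lk (ρ k) := by
  classical
  unfold LL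
  rw [Finset.prod_eq_single k]
  · simp
  · intro l _ hl
    rw [Pi.single_eq_of_ne hl, pow_zero]
  · intro h
    exact absurd (Finset.mem_univ k) h

/-- polynomials depending on `g`, of multidegree `e`, with coefficients in `LL ρ e` -/
def PCO_P (ρ : Fin r → Γ →* Matrix (Fin 2) (Fin 2) F) (e : Fin r → ℕ)
    (q : Γ → MvPolynomial (Fin r × Fin 2) F) : Prop :=
  (∀ g, q g ∈ MultiHom F e) ∧ ∀ m, (fun g => (q g).coeff m) ∈ LL ρ e

theorem PCO_P_add (ρ : Fin r → Γ →* Matrix (Fin 2) (Fin 2) F) (e : Fin r → ℕ)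
    (q q' : Γ → MvPolynomial (Fin r × Fin 2) F) (h : PCO_P ρ e q) (h' : PCO_P ρ e q') :
    PCO_P ρ e (fun g => q g + q' g) := by
  refine ⟨fun g => Submodule.add_mem _ (h.1 g) (h'.1 g), fun m => ?_⟩
  have h1 : (fun g => (q g + q' g).coeff m) =
      (fun g => (q g).coeff m) + fun g => (q' g).coeff m := by
    ext g
    simp
  rw [h1]
  exact Submodule.add_mem _ (h.2 m) (h'.2 m)

theorem PCO_P_zero (ρ : Fin r → Γ →* Matrix (Fin 2) (Fin 2) F) (e : Fin r → ℕ) :
    PCO_P ρ e (fun _ => 0) := by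
  refine ⟨fun g => Submodule.zero_mem _, fun m => ?_⟩
  have h1 : (fun _ : Γ => (0 : MvPolynomial (Fin r × Fin 2) F).coeff m) = 0 := by
    ext g
    simp
  rw [h1]
  exact Submodule.zero_mem _

theorem PCO_P_smul (ρ : Fin r → Γ →* Matrix (Fin 2) (Fin 2) F) (e : Fin r → ℕ) (c : F)
    (q : Γ → MvPolynomial (Fin r × Fin 2) F) (h : PCO_P ρ e q) :
    PCO_P ρ e (fun g => c • q g) := by
  refine ⟨fun g => Submodule.smul_mem _ c (h.1 g), fun m => ?_⟩
  have h1 : (fun g => (c • q g).coeff m) = c • fun g => (q g).coeff m := by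
    ext g
    simp
  rw [h1]
  exact Submodule.smul_mem _ c (h.2 m)

theorem PCO_P_sum (ρ : Fin r → Γ →* Matrix (Fin 2) (Fin 2) F) (e : Fin r → ℕ) {ι : Type*}
    (s : Finset ι) (q : ι → Γ → MvPolynomial (Fin r × Fin 2) F)
    (h : ∀ i ∈ s, PCO_P ρ e (q i)) : PCO_P ρ e (fun g => ∑ i ∈ s, q i g) := by
  classical
  induction s using Finset.induction_on with
  | empty =>
    simp only [Finset.sum_empty]
    exact PCO_P_zero ρ e
  | insert a s ha ih =>
    simp only [Finset.sum_insert ha]
    exact PCO_P_add ρ e _ _ (h a (Finset.mem_insert_self a s))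
      (ih fun i hi => h i (Finset.mem_insert_of_mem hi))

theorem PCO_hom_mul (e e' : Fin r → ℕ) (p p' : MvPolynomial (Fin r × Fin 2) F)
    (h : p ∈ MultiHom F e) (h' : p' ∈ MultiHom F e') : p * p' ∈ MultiHom F (e + e') := by
  classical
  rw [PCO_mem] at h h' ⊢
  intro m hm
  have h1 := MvPolynomial.support_mul p p' hm
  obtain ⟨a, ha, b, hb, rfl⟩ := Finset.mem_add.1 h1
  rw [PCO_wt_add, h a ha, h' b hb]

theorem PCO_P_mul (ρ : Fin r → Γ →* Matrix (Fin 2) (Fin 2) F) (e e' : Fin r → ℕ)
    (q q' : Γ → MvPolynomial (Fin r × Fin 2) F) (h : PCO_P ρ e q) (h' : PCO_P ρ e' q') :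
    PCO_P ρ (e + e') (fun g => q g * q' g) := by
  classical
  refine ⟨fun g => PCO_hom_mul e e' _ _ (h.1 g) (h'.1 g), fun m => ?_⟩
  rw [PCO_LL_add]
  have h1 : (fun g => (q g * q' g).coeff m) =
      ∑ x ∈ Finset.HasAntidiagonal.antidiagonal m, (fun g => (q g).coeff x.1) * fun g => (q' g).coeff x.2 := by
    ext g
    rw [MvPolynomial.coeff_mul, Finset.sum_apply]
    rfl
  rw [h1]
  exact Submodule.sum_mem _ fun x _ => Submodule.mul_mem_mul (h.2 x.1) (h'.2 x.2)

theorem PCO_P_one (ρ : Fin r → Γ →* Matrix (Fin 2) (Fin 2) F) :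
    PCO_P ρ 0 (fun _ => 1) := by
  classical
  refine ⟨fun g => ?_, fun m => ?_⟩
  · rw [PCO_mem]
    intro m hm
    rw [MvPolynomial.mem_support_iff, MvPolynomial.coeff_one] at hm
    split_ifs at hm with h0
    · rw [← h0, PCO_wt_zero]
    · exact absurd rfl hm
  · rw [PCO_LL_zero, Submodule.mem_one]
    refine ⟨(1 : MvPolynomial (Fin r × Fin 2) F).coeff m, ?_⟩
    ext g
    rfl

theorem PCO_P_var (ρ : Fin r → Γ →* Matrix (Fin 2) (Fin 2) F) (p : Fin r × Fin 2) :
    PCO_P ρ (Pi.single p.1 1) (fun g => act ρ g (MvPolynomial.X p)) := by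
  classical
  have h0 : ∀ g, act ρ g (MvPolynomial.X p : MvPolynomial (Fin r × Fin 2) F) =
      ∑ i, MvPolynomial.C (ρ p.1 g i p.2) * MvPolynomial.X (p.1, i) := by
    intro g
    unfold act
    rw [MvPolynomial.aeval_X]
  simp only [h0]
  apply PCO_P_sum
  intro i _
  have h1 : ∀ g, MvPolynomial.C (ρ p.1 g i p.2) * (MvPolynomial.X (p.1, i) :
      MvPolynomial (Fin r × Fin 2) F) =
      MvPolynomial.monomial (Finsupp.single (p.1, i) 1) (ρ p.1 g i p.2) := by
    intro g
    rw [MvPolynomial.C_mul_X_eq_monomial]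
  simp only [h1]
  have hw : PCO_wt (Finsupp.single (p.1, i) 1) = Pi.single p.1 1 := by
    ext k
    unfold PCO_wt
    by_cases hk : k = p.1
    · subst hk
      rw [Pi.single_eq_same]
      fin_cases i
      · simp
      · simp
    · rw [Pi.single_eq_of_ne hk]
      have h2 : ∀ j, (p.1, i) ≠ (k, j) := by
        intro j h
        exact hk (congrArg Prod.fst h).symm
      rw [Finsupp.single_eq_of_ne (h2 0).symm, Finsupp.single_eq_of_ne (h2 1).symm, add_zero]
  refine ⟨fun g => ?_, fun m => ?_⟩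
  · rw [PCO_mem]
    intro m hm
    have h2 := MvPolynomial.support_monomial_subset hm
    rw [Finset.mem_singleton] at h2
    rw [h2, hw]
  · rw [PCO_LL_single]
    simp only [MvPolynomial.coeff_monomial]
    by_cases hm : Finsupp.single (p.1, i) 1 = m
    · simp only [hm, if_true]
      exact Submodule.subset_span ⟨(i, p.2), rfl⟩
    · simp only [hm, if_false]
      exact Submodule.zero_mem _

theorem PCO_P_mono (ρ : Fin r → Γ →* Matrix (Fin 2) (Fin 2) F) (m : Fin r × Fin 2 →₀ ℕ) :
    PCO_P ρ (PCO_wt m) (fun g => act ρ g (MvPolynomial.monomial m 1)) := by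
  classical
  induction m using Finsupp.induction_linear with
  | zero =>
    rw [PCO_wt_zero]
    have h1 : ∀ g, act ρ g (MvPolynomial.monomial 0 1 : MvPolynomial (Fin r × Fin 2) F) = 1 := by
      intro g
      rw [MvPolynomial.monomial_zero', MvPolynomial.C_1, map_one]
    simp only [h1]
    exact PCO_P_one ρ
  | add m m' h h' =>
    rw [PCO_wt_add]
    have h1 : ∀ g, act ρ g (MvPolynomial.monomial (m + m') 1 : MvPolynomial (Fin r × Fin 2) F) =
        act ρ g (MvPolynomial.monomial m 1) * act ρ g (MvPolynomial.monomial m' 1) := by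
      intro g
      rw [← map_mul, MvPolynomial.monomial_mul, one_mul]
    simp only [h1]
    exact PCO_P_mul ρ _ _ _ _ h h'
  | single p n =>
    induction n with
    | zero =>
      rw [Finsupp.single_zero, PCO_wt_zero]
      have h1 : ∀ g, act ρ g (MvPolynomial.monomial 0 1 : MvPolynomial (Fin r × Fin 2) F) = 1 := by
        intro g
        rw [MvPolynomial.monomial_zero', MvPolynomial.C_1, map_one]
      simp only [h1]
      exact PCO_P_one ρ
    | succ n ih =>
      rw [Finsupp.single_add, PCO_wt_add]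
      have h1 : ∀ g, act ρ g (MvPolynomial.monomial
          (Finsupp.single p n + Finsupp.single p 1) 1 : MvPolynomial (Fin r × Fin 2) F) =
          act ρ g (MvPolynomial.monomial (Finsupp.single p n) 1) *
            act ρ g (MvPolynomial.X p) := by
        intro g
        rw [← map_mul, MvPolynomial.X, MvPolynomial.monomial_mul, one_mul]
      simp only [h1]
      have h2 := PCO_P_var ρ p
      have h3 : PCO_wt (Finsupp.single p 1) = Pi.single p.1 1 := by
        obtain ⟨k, i⟩ := p
        ext k'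
        unfold PCO_wt
        by_cases hk : k' = k
        · subst hk
          rw [Pi.single_eq_same]
          fin_cases i
          · simp
          · simp
        · rw [Pi.single_eq_of_ne hk]
          have h2 : ∀ j, (k, i) ≠ (k', j) := by
            intro j h
            exact hk (congrArg Prod.fst h).symm
          rw [Finsupp.single_eq_of_ne (h2 0).symm, Finsupp.single_eq_of_ne (h2 1).symm, add_zero]
      rw [h3]
      exact PCO_P_mul ρ _ _ _ _ ih h2

theorem PCO_P_act (ρ : Fin r → Γ →* Matrix (Fin 2) (Fin 2) F) (e : Fin r → ℕ)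
    (p : MvPolynomial (Fin r × Fin 2) F) (hp : p ∈ MultiHom F e) :
    PCO_P ρ e (fun g => act ρ g p) := by
  have h1 : ∀ g, act ρ g p = ∑ m ∈ PCO_S e, p.coeff m • act ρ g (MvPolynomial.monomial m 1) := by
    intro g
    have h2 := congrArg (act ρ g) (PCO_sum e p hp)
    rw [h2, map_sum]
    refine Finset.sum_congr rfl fun m _ => ?_
    rw [← map_smul, MvPolynomial.smul_monomial, smul_eq_mul, mul_one]
  simp only [h1]
  apply PCO_P_sum
  intro m hm
  rw [PCO_S_mem] at hm
  have h3 := PCO_P_mono ρ m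
  rw [hm] at h3
  exact PCO_P_smul ρ e _ _ h3

end PCO

theorem PCO : PCO_stmt := by
  intro F Γ _ _ r ρ e
  classical
  refine ⟨?_, fun g p hp => (PCO_P_act ρ e p hp).1 g, fun l p hp => ?_⟩
  · have h1 : MultiHom F e ≤ Submodule.span F
        ((fun m => (MvPolynomial.monomial m (1 : F) : MvPolynomial (Fin r × Fin 2) F)) ''
          (PCO_S e : Set (Fin r × Fin 2 →₀ ℕ))) := by
      intro p hp
      rw [PCO_sum e p hp]
      refine Submodule.sum_mem _ fun m hm => ?_
      have h2 : (MvPolynomial.monomial m (p.coeff m) : MvPolynomial (Fin r × Fin 2) F) =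
          p.coeff m • MvPolynomial.monomial m 1 := by
        rw [MvPolynomial.smul_monomial, smul_eq_mul, mul_one]
      rw [h2]
      exact Submodule.smul_mem _ _ (Submodule.subset_span ⟨m, hm, rfl⟩)
    have h3 : FiniteDimensional F (Submodule.span F
        ((fun m => (MvPolynomial.monomial m (1 : F) : MvPolynomial (Fin r × Fin 2) F)) ''
          (PCO_S e : Set (Fin r × Fin 2 →₀ ℕ)))) :=
      FiniteDimensional.span_of_finite F ((Finset.finite_toSet _).image _)
    exact Submodule.finiteDimensional_of_le h1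
  · have h0 := PCO_P_act ρ e p hp
    have h1 : (fun g => l (act ρ g p)) = ∑ m ∈ PCO_S e,
        l (MvPolynomial.monomial m 1) • fun g => (act ρ g p).coeff m := by
      ext g
      have h2 := congrArg l (PCO_sum e (act ρ g p) (h0.1 g))
      rw [h2, map_sum, Finset.sum_apply]
      refine Finset.sum_congr rfl fun m _ => ?_
      have h3 : (MvPolynomial.monomial m ((act ρ g p).coeff m) :
          MvPolynomial (Fin r × Fin 2) F) = (act ρ g p).coeff m • MvPolynomial.monomial m 1 := by
        rw [MvPolynomial.smul_monomial, smul_eq_mul, mul_one]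
      rw [h3, map_smul, smul_eq_mul, Pi.smul_apply, smul_eq_mul, mul_comm]
    rw [h1]
    exact Submodule.sum_mem _ fun m _ => Submodule.smul_mem _ _ (h0.2 m)

end Pool.Agent.TY
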