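import Pool.Agent.helper10.TY.Spec

/-!
# MP_2e0e07_nt, project T, row SYM: the polynomial with roots the sums of monomials in the roots
-/

set_option autoImplicit false

namespace Pool.Agent.TY

open Matrix Polynomial Pool.Agent.GO Pool.Agent.AR Pool.Agent.RG MeasureTheory

/-- the generic polynomial -/
noncomputable def SYM_G (N B m : ℕ) : (MvPolynomial (Fin m) ℤ)[X] :=
  ∏ t : Fin N → Fin m → Fin (B + 1),
    (X - C (∑ χ, ∏ i, (MvPolynomial.X i : MvPolynomial (Fin m) ℤ) ^ (t χ i : ℕ)))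

theorem SYM_map (N B m : ℕ) {F : Type*} [CommRing F] (f : MvPolynomial (Fin m) ℤ →+* F) :
    (SYM_G N B m).map f = ∏ t : Fin N → Fin m → Fin (B + 1),
      (X - C (∑ χ, ∏ i, f (MvPolynomial.X i) ^ (t χ i : ℕ))) := by
  unfold SYM_G
  rw [Polynomial.map_prod]
  refine Finset.prod_congr rfl fun t _ => ?_
  rw [Polynomial.map_sub, Polynomial.map_X, Polynomial.map_C, map_sum]
  simp only [map_prod, map_pow]

theorem SYM_symm (N B m n : ℕ) : ((SYM_G N B m).coeff n).IsSymmetric := by
  intro σ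
  have h1 : (SYM_G N B m).map (MvPolynomial.rename σ : MvPolynomial (Fin m) ℤ →ₐ[ℤ] _).toRingHom =
      SYM_G N B m := by
    rw [SYM_map]
    unfold SYM_G
    refine Fintype.prod_equiv (Equiv.arrowCongr (Equiv.refl (Fin N))
      (Equiv.arrowCongr σ (Equiv.refl (Fin (B + 1))))) _ _ ?_
    intro t
    congr 2
    refine Finset.sum_congr rfl fun χ _ => ?_
    refine Fintype.prod_equiv σ _ _ ?_
    intro i
    have h2 : (MvPolynomial.rename σ : MvPolynomial (Fin m) ℤ →ₐ[ℤ] _).toRingHom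
        (MvPolynomial.X i) = MvPolynomial.X (σ i) := MvPolynomial.rename_X σ i
    rw [h2]
    congr 1
    simp [Equiv.arrowCongr]
  have h3 := congrArg (fun p => p.coeff n) h1
  simp only [Polynomial.coeff_map] at h3
  exact h3

theorem SYM_esymm (m : ℕ) {F : Type*} [Field F] (x : Fin m → F) (i : Fin m) :
    MvPolynomial.aeval x (MvPolynomial.esymm (Fin m) ℤ (i + 1)) =
      (-1) ^ ((i : ℕ) + 1) * (∏ i, (X - C (x i))).coeff (m - (i + 1)) := by
  rw [MvPolynomial.aeval_esymm_eq_multiset_esymm]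
  have h1 : (∏ i, (X - C (x i))) =
      ((Finset.univ.val.map x).map fun t => X - C t).prod := by
    rw [Multiset.map_map]
    rfl
  have hc : Multiset.card (Finset.univ.val.map x) = m := by simp
  rw [h1, Multiset.prod_X_sub_C_coeff _ (by rw [hc]; omega), hc]
  have h2 : m - (m - ((i : ℕ) + 1)) = (i : ℕ) + 1 := by
    have := i.2
    omega
  rw [h2, ← mul_assoc, ← mul_pow]
  simp

theorem SYM : SYM_stmt := by
  intro N B m
  have hq : ∀ n : ℕ, ∃ q : MvPolynomial (Fin m) ℤ,
      (MvPolynomial.aeval (fun i : Fin m => MvPolynomial.esymm (Fin m) ℤ (i + 1)) q :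
        MvPolynomial (Fin m) ℤ) = (SYM_G N B m).coeff n := by
    intro n
    obtain ⟨q, hq⟩ := (MvPolynomial.esymmAlgHom_fin_bijective ℤ m).2
      ⟨(SYM_G N B m).coeff n, SYM_symm N B m n⟩
    refine ⟨q, ?_⟩
    rw [← MvPolynomial.esymmAlgHom_apply, hq]
  choose q hq using hq
  set ψ : MvPolynomial (Fin m) ℤ →ₐ[ℤ] MvPolynomial ℕ ℤ :=
    MvPolynomial.aeval fun i : Fin m =>
      (-1 : MvPolynomial ℕ ℤ) ^ ((i : ℕ) + 1) * MvPolynomial.X (m - ((i : ℕ) + 1)) with hψ
  refine ⟨∑ n ∈ Finset.range ((SYM_G N B m).natDegree + 1), monomial n (ψ (q n)), ?_⟩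
  intro F _ x
  have h1 : (SYM_G N B m).map (MvPolynomial.eval₂Hom (Int.castRingHom F) x) =
      ∏ t : Fin N → Fin m → Fin (B + 1), (X - C (∑ χ, ∏ i, x i ^ (t χ i : ℕ))) := by
    rw [SYM_map]
    simp only [MvPolynomial.coe_eval₂Hom, MvPolynomial.eval₂_X]
  rw [← h1]
  set φ : MvPolynomial ℕ ℤ →+* F := MvPolynomial.eval₂Hom (Int.castRingHom F)
    fun k => (∏ i, (X - C (x i))).coeff k with hφ
  have h2 : ∀ n, φ (ψ (q n)) =
      MvPolynomial.eval₂Hom (Int.castRingHom F) x ((SYM_G N B m).coeff n) := by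
    intro n
    rw [← hq n]
    have h3 : (φ.comp ψ.toRingHom) = (MvPolynomial.eval₂Hom (Int.castRingHom F) x).comp
        (MvPolynomial.aeval (fun i : Fin m => MvPolynomial.esymm (Fin m) ℤ (i + 1)) :
          MvPolynomial (Fin m) ℤ →ₐ[ℤ] MvPolynomial (Fin m) ℤ).toRingHom := by
      apply MvPolynomial.ringHom_ext
      · intro r
        simp
      · intro i
        have h4 : (φ.comp ψ.toRingHom) (MvPolynomial.X i) =
            φ ((-1 : MvPolynomial ℕ ℤ) ^ ((i : ℕ) + 1) * MvPolynomial.X (m - ((i : ℕ) + 1))) := by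
          show φ (ψ (MvPolynomial.X i)) = _
          rw [hψ, MvPolynomial.aeval_X]
        have h5 : ((MvPolynomial.eval₂Hom (Int.castRingHom F) x).comp
            (MvPolynomial.aeval (fun i : Fin m => MvPolynomial.esymm (Fin m) ℤ (i + 1)) :
              MvPolynomial (Fin m) ℤ →ₐ[ℤ] MvPolynomial (Fin m) ℤ).toRingHom)
              (MvPolynomial.X i) =
            MvPolynomial.aeval x (MvPolynomial.esymm (Fin m) ℤ (i + 1)) := by
          show (MvPolynomial.eval₂Hom (Int.castRingHom F) x) (MvPolynomial.aeval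
            (fun i : Fin m => MvPolynomial.esymm (Fin m) ℤ (i + 1)) (MvPolynomial.X i)) = _
          rw [MvPolynomial.aeval_X, MvPolynomial.aeval_def]
          rfl
        rw [h4, h5, SYM_esymm, map_mul, map_pow, map_neg, map_one, hφ]
        simp only [MvPolynomial.coe_eval₂Hom, MvPolynomial.eval₂_X]
    exact congrArg (fun f : MvPolynomial (Fin m) ℤ →+* F => f (q n)) h3
  rw [Polynomial.map_sum]
  simp only [Polynomial.map_monomial, h2]
  ext k
  rw [Polynomial.finsetSum_coeff, Polynomial.coeff_map]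
  simp only [Polynomial.coeff_monomial]
  rw [Finset.sum_ite_eq']
  split_ifs with hk
  · rfl
  · have h6 : (SYM_G N B m).coeff k = 0 := by
      apply Polynomial.coeff_eq_zero_of_natDegree_lt
      simp only [Finset.mem_range] at hk
      omega
    rw [h6, map_zero]

end Pool.Agent.TY
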